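import Pool.Agent.Work.MP_3e8c7a_ng.All

/-!
# MP_3e8c7a_an: closeness of all proportional sections does not give closeness of the bodies

For every `α` with `0 < α < 1` there is `b ≥ 1` such that the Banach–Mazur distance `d_BM(K, L)` is
unbounded over all `n ≥ 1` and all pairs `K, L` of origin-symmetric convex bodies in `ℝ^n` with
`d_BM(K ∩ E, L ∩ E) ≤ b` for every subspace `E` of dimension `⌈α n⌉`. So there is no function
`f(b, α)` as in Q1.

The construction, for a given `κ`.
* By a theorem on bad families (`MP_3e8c7a_un`, `NLU`) there is a finite dimensional space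
  `G = (ℝ^m, |Φ y|_∞)`, `Φ : ℝ^m → ℝ^Q`, that does not factor through any lattice with a constant of
  order `κ`. Let `q_τ (y) = max (θ |Φ y|_2) (2^{-τ} |Φ y|_∞)`, `θ = 1 / Q`, `0 ≤ τ ≤ t`: `q_0` is the norm of
  `G`, `q_t` is Euclidean.
* `X = (ℝ^N, ‖·‖_X)` is built from `N^3` random blocks, each with signal vectors `u_i` and noise vectors
  `γ_l`; `‖x‖_X` is the maximum of a norm `N₂` and of the functionals `ψ_l = γ_l + ∑ Φ_{li} u_i`. `N₂` is the
  quotient norm for which `x = v + T z` costs `|v|_2 + |(w, θ a)|_r + ρ |z|_1`, `r < 2`. Every subspace of `X`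
  of bounded dimension is Euclidean up to few of the functionals `ψ_l`, and its inclusion in `X` factors
  through a lattice. So `X ⊕ (ℝ^m, q_0)` and `X ⊕ (ℝ^m, q_t)` are not `κ`-isomorphic.
* In every section `E` of proportional dimension, some block is complemented, since the orthogonal
  projection onto `E` (or rather onto its projection to `ℝ^N`) destroys the noise. The block contains all finite
  dimensional types, in particular the sum of the spaces `(A, p_τ)`, where `A` is the range of a finite
  rank operator `S` with `‖S‖ ≤ 2` for all norms `p_τ` that does not change the component in `ℝ^m`. An explicit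
  invertible `2 × 2` matrix in `S` and a shift `τ ↦ τ + 1` give an isomorphism between the sections of
  `X ⊕ (ℝ^m, q_0)` and `X ⊕ (ℝ^m, q_t)` by `E`, with a constant that depends on `α` only.
-/

namespace Pool.Agent.Results.MP_3e8c7a_an.NegativeAnswer

open Pool.Agent.MP3e8c7a

theorem result (α : ℝ) (hα : 0 < α) (hα1 : α < 1) : ∃ b : ℝ, 1 ≤ b ∧ ∀ κ : ℝ,
    ∃ (n : ℕ) (K L : Set (Fin n → ℝ)), 1 ≤ n ∧ IsBody K ∧ IsBody L ∧
      SectionsClose ⌈α * n⌉₊ b K L ∧ ENNReal.ofReal κ < dBM K L :=
  Pool.NG.q_NEG α hα hα1

end Pool.Agent.Results.MP_3e8c7a_an.NegativeAnswer
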