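import Pool.Agent.Work.MP_3e8c7a_gg.AllP

/-!
# MP_3e8c7a_an: one section that is not homogeneous enough forces rigidity

Let `0 < α < 1`, `b` real, `M ≥ 1`, `m` natural and `1 ≤ P < ∞`, `P ≠ 2`. There are `C` and `N` such
that for all `n ≥ 1`, `k = ⌈α n⌉`, and all origin-symmetric convex bodies `K, L` in `ℝ^n` all of whose
sections by subspaces of dimension `k` have Banach–Mazur distance at most `b`: if `K` or `L` is `Good`,
then `d_BM(K, L) ≤ C`, and even more: there are a subspace `U` of codimension at most `C` and `t > 0`
with `K ∩ U ⊆ t L` and `t L ∩ U ⊆ C K` (`GeomClose`, no linear map).

`Good` (see `Pool/Agent/Work/MP_3e8c7a_gg/Defs.lean`): the body has (1) a section of dimension `k + N`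
near the unit ball of `ℓ_P`, or (2) a section of dimension `k` near a cube, or (3) a section of
dimension `k` without well complemented `m`-dimensional Euclidean sections, in good position to some
`N`-dimensional subspace, or (4), (5) a section of some fixed dimension `m` that is not well
complemented in some (in all) sections of dimension `k` in good position to it (of a section of
dimension `k + N`). So what is left of Q1 is the case that, for every `m`, every `m`-dimensional
section is uniformly complemented in some `k`-dimensional section of each section of dimension
`k + N`, for `K` and for `L`.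

The proof is elementary. If the norms `p` of `K` and `r` of `L` are not equivalent on any subspace of
bounded codimension, one finds vectors on which `p` is much larger than `r` and vectors on which it is
much smaller. Tilting the section by operators of finite rank, small for one of the norms, one puts
vectors of the first kind into the section `E`, separates them from it by any given `m`-dimensional
subspace `F` in good position to `E`, and adds them again, which does not change `r`. Then `F` appears
as a complemented subspace of the tilted section, which is isomorphic to `K ∩ E`. The special cases use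
Dvoretzky's theorem, which is proved here in an elementary way, and the existence of subspaces of
`ℓ_P^N` which are not complemented in any `ℓ_P^k`. See `Pool/Agent/Work/MP_3e8c7a_gg/Interface.lean` and
`InterfaceP.lean`.
-/

namespace Pool.Agent.Results.MP_3e8c7a_an.SectionRigidity

open Pool.Agent.MP3e8c7a Pool.Agent.MP3e8c7as Pool.GG

theorem result (α b M P : ℝ) (m : ℕ) (hα : 0 < α) (hα1 : α < 1) (hM : 1 ≤ M) (hP : 1 ≤ P)
    (hP2 : P ≠ 2) : ∃ (C : ℝ) (N : ℕ), 1 ≤ C ∧ ∀ n : ℕ, 0 < n → ∀ K L : Set (Fin n → ℝ),
      IsBody K → IsBody L → SectionsClose ⌈α * n⌉₊ b K L →
      (Good b M P m N ⌈α * n⌉₊ K ∨ Good b M P m N ⌈α * n⌉₊ L) →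
      GeomClose C K L ∧ dBM K L ≤ ENNReal.ofReal C :=
  section_rigidity α b M P m hα hα1 hM hP hP2

end Pool.Agent.Results.MP_3e8c7a_an.SectionRigidity
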