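import Pool.Agent.Work.MP_3e8c7a_hp.All

/-!
# MP_3e8c7a_an: bodies with an unconditional section of dimension a little more than `k`

Let `0 < α < 1`, `ε > 0`, `b` real, `M ≥ 1` and `0 < δ ≤ 1/4`. There is `C` such that for all `n ≥ 1`,
`k = ⌈α n⌉`, and all origin-symmetric convex bodies `K, L` in `ℝ^n` all of whose sections by subspaces
of dimension `k` have Banach–Mazur distance at most `b`: if `K` or `L` has a section of dimension at
least `(α + ε) n` that is, up to the factor `M`, a linear image of an unconditional body `U` (a body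
invariant under the sign changes of the coordinates; `UncSection`), then `d_BM(K, L) ≤ C n^δ`, and
moreover
* `d_BM(K, L) ≤ C`, and even `K ∩ X ⊆ t L`, `t L ∩ X ⊆ C K` for some `t > 0` and some subspace `X` of
  codimension at most `C` (`GeomClose`), or
* the norm of `U` satisfies the lower estimate `q ^ (1/2 - δ) min ‖x_s‖ ≤ C ‖x_1 + ... + x_q‖` for
  disjointly supported `x_1, ..., x_q` (`LowerEst`).

The proof has four steps.
* THEOREM GG (`MP_3e8c7a_gg`): if `K` and `L` are not close on any subspace of bounded codimension, then
  every `m`-dimensional section of `K`, and of `L`, is uniformly complemented in some `k`-dimensional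
  section of every section of dimension `k + N` (`m` fixed, `N` depends on `m`).
* So every `m`-dimensional subspace of `U ∩ [x_j : j ∈ J]`, `|J| ≥ k + N`, is uniformly complemented.
  If the norm is small on sums of disjoint vectors (smaller than the lower estimate allows), `U`
  contains vectors that behave like blocks of a norm with a non-trivial upper estimate and no lower
  `2`-estimate; the theorem on uncomplemented subspaces (`MP_3e8c7a_un`, `RIG`) contradicts this. So
  `U` satisfies lower estimates on large sets of coordinates.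
* Then a proportional section of `U` is Euclidean up to `n^δ` (Lozanovskii's factorization, a volume
  ratio argument in the style of Szarek and Tomczak-Jaegermann).
* THEOREM H with polynomial constants (`MP_3e8c7a_hp`): if a section of `K` of dimension at least
  `(α + ε / 2) n` is `D`-Euclidean, then `d_BM(K, L) ≤ (A D) ^ A`, `A` depends on `α, ε, b` only.
-/

namespace Pool.Agent.Results.MP_3e8c7a_an.UnconditionalSection

open Pool.Agent.MP3e8c7a Pool.Agent.MP3e8c7as Pool.UN

theorem result (α ε b M δ : ℝ) (hα : 0 < α) (hα1 : α < 1) (hε : 0 < ε) (hM : 1 ≤ M) (hδ : 0 < δ)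
    (hδ4 : δ ≤ 1 / 4) : ∃ C : ℝ, 1 ≤ C ∧ ∀ n : ℕ, 0 < n → ∀ K L : Set (Fin n → ℝ),
      IsBody K → IsBody L → SectionsClose ⌈α * n⌉₊ b K L →
      ∀ (N : ℕ) (i : (Fin N → ℝ) →ₗ[ℝ] (Fin n → ℝ)) (U : Set (Fin N → ℝ)), (α + ε) * n ≤ N →
      (UncSection M K i U ∨ UncSection M L i U) →
      dBM K L ≤ ENNReal.ofReal (C * (n : ℝ) ^ δ) ∧
        ((GeomClose C K L ∧ dBM K L ≤ ENNReal.ofReal C) ∨ LowerEst C (1 / 2 - δ) U) :=
  theorem_UN α ε b M δ hα hα1 hε hM hδ hδ4

end Pool.Agent.Results.MP_3e8c7a_an.UnconditionalSection
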