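import Pool.Agent.Work.MP_3e8c7a_h.All

/-!
# MP_3e8c7a_an: bodies of bounded volume ratio, and one Euclidean section is enough

Let `0 < α < 1`, `ε > 0`, `b` real and `M ≥ 1`. There is `C = C(α, ε, b, M)` such that for all
`n ≥ 1` and all origin-symmetric convex bodies `K, L` in `ℝ^n` all of whose sections by subspaces of
dimension `k = ⌈α n⌉` have Banach–Mazur distance at most `b`: if `K` or `L` has one section of
dimension `N ≥ (α + ε) n` within `M` of an ellipsoid, or contains an ellipsoid `D` with
`vol ≤ M ^ n vol D` (bounded volume ratio), then `d_BM(K, L) ≤ C`. The other body and the rest of the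
first one are arbitrary.

The proof is elementary. Let `p`, `r` be the norms of `K`, `L`. (1) Random kernels: a Euclidean
section contains sections of almost full dimension in good position to any given subspace of small
proportional dimension, and a body of bounded volume ratio has Euclidean sections of dimension
`(1 - η) n`. (2) The gap lemma: if `r / p` is at least `t⁺` on `Y⁺` and at most `t⁻` on `Y⁻`, both
Euclidean of dimension at least `m`, and `t⁺ / t⁻` is larger than some constant, then every
`m`-dimensional section of `K` and of `L` is uniformly close to an ellipsoid, with a constant that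
does not depend on `m`; this is proved by adding multiples of the extremal Euclidean norm to the
norms of the section, which is possible by tilting, once with vectors of `Y⁺` and once with vectors
of `Y⁻`. (3) So either both bodies are close to ellipsoids, or `p` and `r` are equivalent on a large
Euclidean section and, for some `m`, all sections of dimension `m`, hence (Kwapień's theorem and the
submultiplicativity of type and cotype constants) all sections of dimension `m ^ 10` are close to
ellipsoids, while no `m + 1`-dimensional section shows a large ratio `r / p` or `p / r`. Maximal
determinants then give a subspace `X` of codimension at most `4 m + 2` on which `p` and `r` are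
equivalent, and `X` is complemented for both norms (orthogonal liftings, Carathéodory's theorem and
a minimax argument). See `Pool/Agent/Work/MP_3e8c7a_h/Interface.lean`.
-/

namespace Pool.Agent.Results.MP_3e8c7a_an.VolumeRatio

open Pool.Agent.MP3e8c7a Pool.EH

theorem result (α ε b M : ℝ) (hα : 0 < α) (hα1 : α < 1) (hε : 0 < ε) (hM : 1 ≤ M) : ∃ C : ℝ,
    ∀ n : ℕ, 0 < n → ∀ K L : Set (Fin n → ℝ), IsBody K → IsBody L →
      SectionsClose ⌈α * n⌉₊ b K L →
      ((∃ N : ℕ, (α + ε) * n ≤ N ∧ HasEllSection M N K) ∨
        (∃ N : ℕ, (α + ε) * n ≤ N ∧ HasEllSection M N L) ∨ VolRatio M K ∨ VolRatio M L) →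
      dBM K L ≤ ENNReal.ofReal C :=
  volume_ratio α ε b M hα hα1 hε hM

end Pool.Agent.Results.MP_3e8c7a_an.VolumeRatio
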